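import Pool.Agent.Zk6.G.A7
import Pool.Agent.Zk4.G.Sc

set_option autoImplicit false

/-!
# Critical points of the derivatives of a function on a vertical line: scaling
-/

namespace Pool.Agent.Zk69.GH

open Complex Filter Topology
open Pool.Agent.Zk4.G Pool.Agent.Zk4.G.Sc

variable {F Λ : ℂ → ℂ} {h : ℝ} {u : ℂ}

theorem pt (h t : ℝ) : (h : ℂ) + 3 * (I * ((t / 3 : ℝ) : ℂ)) = h + I * t := by
  push_cast
  ring

/-- (S1) -/
theorem gn_iff (hF : FE F) (H : Scl h Λ F u) (n : ℕ) (t : ℝ) :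
    gn F n (t / 3) = 0 ↔ iteratedDeriv n Λ (h + I * t) = 0 := by
  rw [Pool.Agent.Zk6.G.gn_zero hF, H.zero, pt]

/-- (S2) -/
theorem gn_abs (hF : FE F) (H : Scl h Λ F u) (n : ℕ) (x : ℝ) :
    |gn F n x| = ‖u‖ * 3 ^ n * ‖iteratedDeriv n Λ (h + I * ((3 * x : ℝ) : ℂ))‖ := by
  have h1 := Complex.conj_eq_iff_re.1 (Pool.Agent.Zk6.G.gn_real hF n x)
  have h2 : |gn F n x| = ‖I ^ n * iteratedDeriv n F (I * x)‖ := by
    unfold gn
    rw [← h1, Complex.norm_real, Complex.ofReal_re, Real.norm_eq_abs]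
  rw [h2, H.it, norm_mul, norm_pow, norm_I, one_pow, one_mul, norm_mul, norm_mul, norm_pow, Complex.norm_ofNat]
  congr 3
  push_cast
  ring

theorem locmin (hF : FE F) (H : Scl h Λ F u) (n : ℕ) (t : ℝ) :
    IsLocalMin (fun x : ℝ => |gn F n x|) (t / 3) ↔
      IsLocalMin (fun y : ℝ => ‖iteratedDeriv n Λ (h + I * y)‖) t := by
  have hc : 0 < ‖u‖ * 3 ^ n := mul_pos (norm_pos_iff.2 H.ne) (by positivity)
  have e : ∀ x : ℝ, |gn F n x| = ‖u‖ * 3 ^ n * ‖iteratedDeriv n Λ (h + I * ((3 * x : ℝ) : ℂ))‖ := gn_abs hF H n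
  have et : 3 * (t / 3) = t := by ring
  constructor
  · intro hm
    have ht : Tendsto (fun y : ℝ => y / 3) (𝓝 t) (𝓝 (t / 3)) := (continuous_id.div_const 3).tendsto t
    have h1 := ht.eventually hm
    filter_upwards [h1] with y hu
    change |gn F n (t / 3)| ≤ |gn F n (y / 3)| at hu
    rw [e, e, et, show 3 * (y / 3) = y by ring] at hu
    exact le_of_mul_le_mul_left hu hc
  · intro hm
    have hcont : Continuous (fun x : ℝ => (3 : ℝ) * x) := by fun_prop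
    have ht : Tendsto (fun x : ℝ => (3 : ℝ) * x) (𝓝 (t / 3)) (𝓝 t) := by
      have h5 : Tendsto (fun x : ℝ => (3 : ℝ) * x) (𝓝 (t / 3)) (𝓝 (3 * (t / 3))) := hcont.tendsto (t / 3)
      rwa [et] at h5
    have h1 := ht.eventually hm
    filter_upwards [h1] with x hx
    change |gn F n (t / 3)| ≤ |gn F n x|
    rw [e, e, et]
    exact mul_le_mul_of_nonneg_left hx hc.le

/-- (S4) -/
theorem vw_eq (hF : FE F) (H : Scl h Λ F u) (n : ℕ) (t : ℝ) :
    vw F n (t / 3) = weight h Λ n t := by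
  have h1 : mu F (n + 1) (I * ((t / 3 : ℝ) : ℂ)) = analyticOrderNatAt (iteratedDeriv (n + 1) Λ) (h + I * t) := by
    rw [H.mu, pt]
  unfold vw weight
  rw [h1]
  by_cases hm : IsLocalMin (fun y : ℝ => ‖iteratedDeriv n Λ (h + I * y)‖) t
  · rw [if_pos hm, if_pos ((locmin hF H n t).2 hm)]
  · rw [if_neg hm, if_neg (fun h => hm ((locmin hF H n t).1 h))]

theorem critical_eq (hF : FE F) (H : Scl h Λ F u) (n : ℕ) (a b : ℝ) :
    critical h Λ n a b = (fun x : ℝ => 3 * x) ''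
      {x : ℝ | a / 3 < x ∧ x ≤ b / 3 ∧ gn F n x ≠ 0 ∧ gn F (n + 1) x = 0} := by
  ext t
  constructor
  · rintro ⟨h1, h2, h3, h4⟩
    refine ⟨t / 3, ⟨by linarith, by linarith, fun h5 => h3 ((gn_iff hF H n t).1 h5),
      (gn_iff hF H (n + 1) t).2 h4⟩, ?_⟩
    change 3 * (t / 3) = t
    ring
  · rintro ⟨x, ⟨h1, h2, h3, h4⟩, rfl⟩
    have eu : x = 3 * x / 3 := by ring
    change a < 3 * x ∧ 3 * x ≤ b ∧ _
    rw [eu] at h3 h4
    refine ⟨by linarith, by linarith, fun h5 => h3 ((gn_iff hF H n (3 * x)).2 h5),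
      (gn_iff hF H (n + 1) (3 * x)).1 h4⟩

/-- (S5) -/
theorem V_eq (hF : FE F) (H : Scl h Λ F u) (n : ℕ) (a b : ℝ) :
    V h Λ n a b = VT F n (a / 3) (b / 3) := by
  unfold VT V
  rw [critical_eq hF H, finsum_mem_image (fun x _ y _ hxy => by
    have : (3 : ℝ) * x = 3 * y := hxy
    linarith)]
  refine finsum_mem_congr rfl fun x _ => ?_
  rw [← vw_eq hF H, show 3 * x / 3 = x by ring]

theorem W_eq (hF : FE F) (H : Scl h Λ F u) (n : ℕ) (a b : ℝ) :
    W h Λ n a b = ∑ᶠ j : ℕ, VT F (n + j) (a / 3) (b / 3) := by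
  unfold W
  exact finsum_congr fun j => V_eq hF H (n + j) a b

end Pool.Agent.Zk69.GH
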